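import Pool.Agent.Helper46.Late.Sud5

/-!
# Bounds for the smallest critical sets of standard division sudokus
-/

set_option autoImplicit false

namespace Pool.Agent.Results.MP_b976b5_co.Bounds

open Pool.Agent.Helper46.Late

/-- `m² - m ≤ c(m) ≤ m² * ⌊m² / 4⌋`; the set of the sizes of the critical sets is not empty, and every
determining set of every standard division sudoku of rank `m` has at least `m² - m` elements. -/
theorem result (m : ℕ) (hm : 2 ≤ m) :
    (∃ O S : Set (Fin 3 → X m), IsDivision O ∧ IsCritical S O ∧ S.ncard = c m) ∧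
    (∀ O S : Set (Fin 3 → X m), IsDivision O → Determines S O → m ^ 2 - m ≤ S.ncard) ∧
    m ^ 2 - m ≤ c m ∧ c m ≤ m ^ 2 * (m ^ 2 / 4) := by
  refine ⟨?_, fun O S hO hS => ?_, bounds m (by omega)⟩
  · obtain ⟨n, rfl⟩ : ∃ n, m = n + 1 := ⟨m - 1, by omega⟩
    obtain ⟨S, hS, hcrit⟩ := exists_critical (determines_S₀ n 0 (by omega))
    have hne : {k | ∃ O S : Set (Fin 3 → X (n + 1)), IsDivision O ∧ IsCritical S O ∧
        S.ncard = k}.Nonempty := ⟨_, O₀ n, S, isDivision_O₀ n, hcrit, rfl⟩
    exact Nat.sInf_mem hne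
  · rw [pow_two]
    exact lower hO hS

end Pool.Agent.Results.MP_b976b5_co.Bounds
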